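import Pool.Agent.W761.CP.Defs

set_option autoImplicit false
set_option linter.all false

open MeasureTheory
open scoped ENNReal FourierTransform SchwartzMap InnerProductSpace

namespace Pool.Agent.W918.CP

open Pool.Agent.Helper209.CX (Ed L2d InH1 dirichlet IsHu)
open Pool.Agent.W761.CP

noncomputable section

theorem pd_smooth {d : ℕ} (k : Fin d) (χ : Ed d → ℝ) (h : ContDiff ℝ ((⊤ : ℕ∞) : WithTop ℕ∞) χ) :
    ContDiff ℝ ((⊤ : ℕ∞) : WithTop ℕ∞) (pd k χ) := by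
  unfold pd
  have h1 : ContDiff ℝ ((⊤ : ℕ∞) : WithTop ℕ∞) (fderiv ℝ χ) := by
    apply h.fderiv_right
    exact le_of_eq (by rfl)
  exact h1.clm_apply contDiff_const

theorem pd_supp {d : ℕ} (k : Fin d) (χ : Ed d → ℝ) (h : ∃ c : ℝ, HasCompactSupport fun x => χ x - c) :
    HasCompactSupport (pd k χ) := by
  obtain ⟨c, hc⟩ := h
  have h1 := hc.fderiv (𝕜 := ℝ)
  have h2 : fderiv ℝ (fun x => χ x - c) = fderiv ℝ χ := by
    funext x
    exact fderiv_sub_const c
  rw [h2] at h1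
  exact h1.comp_left (g := fun L : Ed d →L[ℝ] ℝ => L (ev k)) (by simp)

theorem pd_mul {d : ℕ} (k : Fin d) (χ : Ed d → ℝ) (h : Mul χ) : Mul (pd k χ) :=
  ⟨pd_smooth k χ h.smooth, 0, by simpa using pd_supp k χ h.supp⟩

theorem pd_bound {d : ℕ} (k : Fin d) (χ : Ed d → ℝ) (h : Mul χ) : ∃ B : ℝ, ∀ x, ‖pd k χ x‖ ≤ B :=
  (pd_smooth k χ h.smooth).continuous.bounded_above_of_compact_support (pd_supp k χ h.supp)

theorem lap_cont {d : ℕ} (χ : Ed d → ℝ) (h : Mul χ) : Continuous (lap χ) := by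
  unfold lap
  exact continuous_finset_sum _ fun k _ => (pd_smooth k _ (pd_smooth k χ h.smooth)).continuous

theorem bounds {d : ℕ} (χ : Ed d → ℝ) (h : Mul χ) : ∃ B : ℝ, 0 ≤ B ∧ (∀ k x, ‖pd k χ x‖ ≤ B) ∧
    ∀ x, ‖lap χ x‖ ≤ B := by
  choose B1 hB1 using fun k => pd_bound k χ h
  choose B2 hB2 using fun k => pd_bound k (pd k χ) (pd_mul k χ h)
  refine ⟨∑ k, (|B1 k| + |B2 k|), Finset.sum_nonneg fun k _ => by positivity, ?_, ?_⟩
  · intro k x
    calc ‖pd k χ x‖ ≤ B1 k := hB1 k x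
      _ ≤ |B1 k| + |B2 k| := by
        have := le_abs_self (B1 k)
        have := abs_nonneg (B2 k)
        linarith
      _ ≤ _ := Finset.single_le_sum (f := fun k => |B1 k| + |B2 k|) (fun k _ => by positivity) (Finset.mem_univ k)
  · intro x
    unfold lap
    refine (norm_sum_le _ _).trans (Finset.sum_le_sum fun k _ => ?_)
    calc ‖pd k (pd k χ) x‖ ≤ B2 k := hB2 k x
      _ ≤ |B1 k| + |B2 k| := by
        have := le_abs_self (B2 k)
        have := abs_nonneg (B1 k)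
        linarith

theorem memLp_mul {d : ℕ} (f : Ed d → ℝ) (hf : Continuous f) (B : ℝ) (hB : ∀ x, ‖f x‖ ≤ B) (u : L2d d) :
    MemLp (fun x => (f x : ℂ) * u x) 2 volume := by
  have h1 : MemLp (fun x => ((B : ℝ) : ℂ) * u x) 2 volume := (Lp.memLp u).const_mul _
  have hm : AEStronglyMeasurable (fun x => (f x : ℂ)) volume :=
    (Complex.continuous_ofReal.comp hf).aestronglyMeasurable
  refine h1.mono (hm.mul (Lp.aestronglyMeasurable u)) ?_
  refine Filter.Eventually.of_forall fun x => ?_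
  rw [norm_mul, norm_mul, Complex.norm_real, Complex.norm_real]
  refine mul_le_mul_of_nonneg_right ((hB x).trans ?_) (norm_nonneg _)
  rw [Real.norm_eq_abs]
  exact le_abs_self B

theorem mulR_coe {d : ℕ} (f : Ed d → ℝ) (hf : Continuous f) (B : ℝ) (hB : ∀ x, ‖f x‖ ≤ B) (u : L2d d) :
    (mulR f u : Ed d → ℂ) =ᵐ[volume] fun x => (f x : ℂ) * u x := by
  have h := memLp_mul f hf B hB u
  unfold mulR
  rw [dif_pos h]
  exact h.coeFn_toLp

theorem norm_sq_int {d : ℕ} (u : L2d d) : ‖u‖ ^ 2 = ∫ x, ‖u x‖ ^ 2 := by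
  have h1 : ⟪u, u⟫_ℂ = ((‖u‖ ^ 2 : ℝ) : ℂ) := by
    rw [inner_self_eq_norm_sq_to_K]
    norm_cast
  rw [L2.inner_def] at h1
  have h2 : ∫ x, ⟪u x, u x⟫_ℂ = ((∫ x, ‖u x‖ ^ 2 : ℝ) : ℂ) := by
    rw [← integral_complex_ofReal]
    congr 1
    funext x
    rw [inner_self_eq_norm_sq_to_K]
    norm_cast
  rw [h2] at h1
  exact_mod_cast h1.symm

theorem int_sq {d : ℕ} (u : L2d d) : Integrable (fun x => ‖u x‖ ^ 2) volume :=
  (memLp_two_iff_integrable_sq_norm (Lp.aestronglyMeasurable u)).1 (Lp.memLp u)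

theorem comm_coe {d : ℕ} (h : ℝ) (χ : Ed d → ℝ) (hχ : Mul χ) (u : L2d d) (g : Fin d → L2d d) :
    (comm h χ u g : Ed d → ℂ) =ᵐ[volume] fun x => ((h ^ 2 : ℝ) : ℂ) *
      (2 * (∑ k, (pd k χ x : ℂ) * g k x) + (lap χ x : ℂ) * u x) := by
  obtain ⟨B, hB0, hB1, hB2⟩ := bounds χ hχ
  have e1 : ∀ k, (mulR (pd k χ) (g k) : Ed d → ℂ) =ᵐ[volume] fun x => (pd k χ x : ℂ) * g k x := fun k =>
    mulR_coe _ (pd_smooth k χ hχ.smooth).continuous B (hB1 k) (g k)
  have e2 : (mulR (lap χ) u : Ed d → ℂ) =ᵐ[volume] fun x => (lap χ x : ℂ) * u x :=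
    mulR_coe _ (lap_cont χ hχ) B hB2 u
  have e3 : (((∑ k, mulR (pd k χ) (g k) : L2d d)) : Ed d → ℂ) =ᵐ[volume]
      fun x => ∑ k, (mulR (pd k χ) (g k) : Ed d → ℂ) x := by
    have := Lp.coeFn_finsetSum (Finset.univ : Finset (Fin d)) (fun k => mulR (pd k χ) (g k))
    filter_upwards [this] with x hx
    rw [hx, Finset.sum_apply]
  have e4 : ∀ᵐ x ∂(volume : Measure (Ed d)), ∀ k, (mulR (pd k χ) (g k) : Ed d → ℂ) x = (pd k χ x : ℂ) * g k x :=
    ae_all_iff.2 e1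
  unfold Pool.Agent.W761.CP.comm
  filter_upwards [e2, e3, e4, Lp.coeFn_smul ((h ^ 2 : ℝ) : ℂ) ((2 : ℂ) • (∑ k, mulR (pd k χ) (g k)) + mulR (lap χ) u),
    Lp.coeFn_add ((2 : ℂ) • (∑ k, mulR (pd k χ) (g k))) (mulR (lap χ) u),
    Lp.coeFn_smul (2 : ℂ) (∑ k, mulR (pd k χ) (g k))] with x h2 h3 h4 h5 h6 h7
  rw [h5, Pi.smul_apply, h6, Pi.add_apply, h7, Pi.smul_apply, h3, h2, smul_eq_mul, smul_eq_mul]
  simp only [h4]

theorem com : S_COM := by
  intro d χ hχ
  obtain ⟨B, hB0, hB1, hB2⟩ := bounds χ hχ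
  refine ⟨8 * B ^ 2 * (d + 1), by positivity, ?_⟩
  intro b h u g hb hbx hh0 hh1
  have hms : MeasurableSet {x : Ed d | b x = 1} := hb (measurableSet_singleton 1)
  have hgi : Integrable (fun x => ∑ k, ‖g k x‖ ^ 2) (volume : Measure (Ed d)) :=
    integrable_finset_sum _ fun k _ => int_sq (g k)
  have hui := int_sq u
  have hpt : ∀ᵐ x ∂(volume : Measure (Ed d)), ‖comm h χ u g x‖ ^ 2 ≤
      Set.indicator {x : Ed d | b x = 1} (fun x => 8 * B ^ 2 * (d + 1) * (h ^ 2 * (∑ k, ‖g k x‖ ^ 2) + ‖u x‖ ^ 2)) x := by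
    filter_upwards [comm_coe h χ hχ u g] with x hx
    rw [hx]
    by_cases hbx1 : b x = 1
    · rw [Set.indicator_of_mem (show x ∈ {x : Ed d | b x = 1} from hbx1)]
      have n1 : ‖∑ k, (pd k χ x : ℂ) * g k x‖ ≤ B * ∑ k, ‖g k x‖ := by
        rw [Finset.mul_sum]
        refine (norm_sum_le _ _).trans (Finset.sum_le_sum fun k _ => ?_)
        rw [norm_mul, Complex.norm_real]
        exact mul_le_mul_of_nonneg_right (hB1 k x) (norm_nonneg _)
      have n2 : ‖(lap χ x : ℂ) * u x‖ ≤ B * ‖u x‖ := by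
        rw [norm_mul, Complex.norm_real]
        exact mul_le_mul_of_nonneg_right (hB2 x) (norm_nonneg _)
      have n3 : (∑ k, ‖g k x‖) ^ 2 ≤ d * ∑ k, ‖g k x‖ ^ 2 := by
        have := sq_sum_le_card_mul_sum_sq (s := (Finset.univ : Finset (Fin d))) (f := fun k => ‖g k x‖)
        simpa using this
      have n4 : ‖2 * (∑ k, (pd k χ x : ℂ) * g k x) + (lap χ x : ℂ) * u x‖ ≤
          2 * (B * ∑ k, ‖g k x‖) + B * ‖u x‖ := by
        refine (norm_add_le _ _).trans (add_le_add ?_ n2)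
        rw [norm_mul]
        have : ‖(2 : ℂ)‖ = 2 := by simp
        rw [this]
        linarith
      rw [norm_mul, Complex.norm_real, Real.norm_of_nonneg (by positivity), mul_pow]
      have hG : 0 ≤ ∑ k, ‖g k x‖ := Finset.sum_nonneg fun k _ => norm_nonneg _
      have hG2 : 0 ≤ ∑ k, ‖g k x‖ ^ 2 := Finset.sum_nonneg fun k _ => by positivity
      have n5 : ‖2 * (∑ k, (pd k χ x : ℂ) * g k x) + (lap χ x : ℂ) * u x‖ ^ 2 ≤
          8 * B ^ 2 * (d * ∑ k, ‖g k x‖ ^ 2) + 2 * B ^ 2 * ‖u x‖ ^ 2 := by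
        calc _ ≤ (2 * (B * ∑ k, ‖g k x‖) + B * ‖u x‖) ^ 2 := pow_le_pow_left₀ (norm_nonneg _) n4 2
          _ ≤ 2 * (2 * (B * ∑ k, ‖g k x‖)) ^ 2 + 2 * (B * ‖u x‖) ^ 2 := by
            nlinarith [sq_nonneg (2 * (B * ∑ k, ‖g k x‖) - B * ‖u x‖)]
          _ = 8 * B ^ 2 * (∑ k, ‖g k x‖) ^ 2 + 2 * B ^ 2 * ‖u x‖ ^ 2 := by ring
          _ ≤ _ := by
            have := mul_le_mul_of_nonneg_left n3 (show 0 ≤ 8 * B ^ 2 by positivity)
            linarith
      have hh2 : h ^ 2 ≤ 1 := by nlinarith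
      have hd : (0 : ℝ) ≤ d := Nat.cast_nonneg d
      set G2 := ∑ k, ‖g k x‖ ^ 2 with hG2d
      set U2 := ‖u x‖ ^ 2 with hU2
      have hU : 0 ≤ U2 := by positivity
      have hB2' : 0 ≤ B ^ 2 := by positivity
      calc (h ^ 2) ^ 2 * _ ≤ (h ^ 2) ^ 2 * (8 * B ^ 2 * (d * G2) + 2 * B ^ 2 * U2) :=
            mul_le_mul_of_nonneg_left n5 (by positivity)
        _ ≤ h ^ 2 * (8 * B ^ 2 * (d * G2)) + 2 * B ^ 2 * U2 := by
            have t1 : (h ^ 2) ^ 2 ≤ h ^ 2 := by nlinarith [sq_nonneg h]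
            have t2 : (h ^ 2) ^ 2 ≤ 1 := t1.trans hh2
            have p1 : 0 ≤ 8 * B ^ 2 * (d * G2) := by positivity
            have p2 : 0 ≤ 2 * B ^ 2 * U2 := by positivity
            have q1 := mul_le_mul_of_nonneg_right t1 p1
            have q2 := mul_le_mul_of_nonneg_right t2 p2
            linarith
        _ ≤ 8 * B ^ 2 * (d + 1) * (h ^ 2 * G2 + U2) := by
            have p1 : 0 ≤ B ^ 2 * (h ^ 2 * G2) := by positivity
            have p2 : 0 ≤ B ^ 2 * U2 := by positivity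
            have p3 : 0 ≤ d * (B ^ 2 * U2) := by positivity
            nlinarith
    · rw [Set.indicator_of_notMem (show x ∉ {x : Ed d | b x = 1} from hbx1)]
      have h1 : ∀ k, pd k χ x = 0 := by
        intro k
        by_contra hne
        exact hbx1 (hbx x (Or.inl ⟨k, hne⟩))
      have h2 : lap χ x = 0 := by
        by_contra hne
        exact hbx1 (hbx x (Or.inr hne))
      simp [h1, h2]
  rw [norm_sq_int]
  have hint : Integrable (fun x => 8 * B ^ 2 * (d + 1) * (h ^ 2 * (∑ k, ‖g k x‖ ^ 2) + ‖u x‖ ^ 2)) (volume : Measure (Ed d)) :=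
    ((hgi.const_mul (h ^ 2)).add hui).const_mul _
  have h3 := integral_mono_ae (int_sq (comm h χ u g)) (hint.indicator hms) hpt
  refine h3.trans (le_of_eq ?_)
  rw [integral_indicator hms, integral_const_mul]
  congr 1
  have e1 : IntegrableOn (fun x => h ^ 2 * (∑ k, ‖g k x‖ ^ 2)) {x : Ed d | b x = 1} volume := (hgi.const_mul (h ^ 2)).integrableOn
  have e2 : IntegrableOn (fun x => ‖u x‖ ^ 2) {x : Ed d | b x = 1} volume := hui.integrableOn
  have e3 := integral_add e1 e2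
  rw [integral_const_mul] at e3
  exact e3

theorem pd_one_sub {d : ℕ} (k : Fin d) (χ : Ed d → ℝ) : pd k (fun x => 1 - χ x) = fun x => -pd k χ x := by
  funext x
  unfold pd
  rw [fderiv_const_sub]
  rfl

theorem pd_neg {d : ℕ} (k : Fin d) (χ : Ed d → ℝ) : pd k (fun x => - χ x) = fun x => -pd k χ x := by
  funext x
  unfold pd
  rw [fderiv_fun_neg]
  rfl

theorem lap_one_sub {d : ℕ} (χ : Ed d → ℝ) : lap (fun x => 1 - χ x) = fun x => -lap χ x := by
  funext x
  unfold lap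
  rw [← Finset.sum_neg_distrib]
  apply Finset.sum_congr rfl
  intro k _
  rw [pd_one_sub, pd_neg]

theorem cm1 : S_CM1 := by
  intro d h χ u g hχ
  have hm : Mul (fun x => 1 - χ x) := by
    refine ⟨contDiff_const.sub hχ.smooth, ?_⟩
    obtain ⟨c, hc⟩ := hχ.supp
    refine ⟨1 - c, ?_⟩
    have h1 : (fun x => (1 - χ x) - (1 - c)) = -(fun x => χ x - c) := by
      funext x
      rw [Pi.neg_apply]
      ring
    rw [h1]
    exact hc.neg
  refine ⟨hm, ?_, ?_⟩
  · apply Lp.ext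
    filter_upwards [comm_coe h _ hm u g, comm_coe h χ hχ u g, Lp.coeFn_neg (comm h χ u g)] with x h1 h2 h3
    rw [h1, h3, Pi.neg_apply, h2, lap_one_sub]
    simp only [pd_one_sub]
    push_cast
    simp only [neg_mul, Finset.sum_neg_distrib]
    ring
  · intro h0 h1 v
    have hc : Continuous χ := hχ.smooth.continuous
    constructor
    · apply Lp.norm_le_norm_of_ae_le
      filter_upwards [mulR_coe χ hc 1 (fun x => by rw [Real.norm_of_nonneg (h0 x)]; exact h1 x) v] with x hx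
      rw [hx, norm_mul, Complex.norm_real, Real.norm_of_nonneg (h0 x)]
      exact mul_le_of_le_one_left (norm_nonneg _) (h1 x)
    · apply Lp.norm_le_norm_of_ae_le
      filter_upwards [mulR_coe (fun x => 1 - χ x) (continuous_const.sub hc) 1 (fun x => by
        rw [Real.norm_of_nonneg (by linarith [h1 x])]; linarith [h0 x]) v] with x hx
      rw [hx, norm_mul, Complex.norm_real, Real.norm_of_nonneg (by linarith [h1 x])]
      exact mul_le_of_le_one_left (norm_nonneg _) (by linarith [h0 x])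

end

end Pool.Agent.W918.CP
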